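import Pool.Agent.W295.PR.Stm

set_option autoImplicit false

namespace Pool.Agent.W32.PR.PPc

open Pool.Agent.W295.PR

theorem gen_preconn {X : Type} [Group X] [TopologicalSpace X] [IsTopologicalGroup X] (S : Set X)
    (h1 : (1 : X) ∈ S) (hS : IsPreconnected S) : IsPreconnected (Subgroup.closure S : Set X) := by
  set P := Subgroup.closure S with hP
  let S' : Set P := ((↑) : P → X) ⁻¹' S
  have himg : ((↑) : P → X) '' S' = S := by
    rw [Set.image_preimage_eq_inter_range, Set.inter_eq_left]
    intro x hx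
    exact ⟨⟨x, Subgroup.subset_closure hx⟩, rfl⟩
  have hS' : IsPreconnected S' := by
    refine Topology.IsInducing.subtypeVal.isPreconnected_image.mp ?_
    have e : (Subtype.val '' S' : Set X) = S := himg
    exact e ▸ hS
  have h1' : (1 : P) ∈ S' := h1
  have hsub : S' ⊆ connectedComponent (1 : P) := hS'.subset_connectedComponent h1'
  have hle : Subgroup.closure S' ≤ Subgroup.connectedComponentOfOne P := by
    rw [Subgroup.closure_le]
    exact hsub
  have htop : Subgroup.closure S' = ⊤ := Subgroup.closure_closure_coe_preimage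
  rw [htop] at hle
  have huniv : connectedComponent (1 : P) = Set.univ := by
    ext x
    exact ⟨fun _ => Set.mem_univ x, fun _ => hle (Subgroup.mem_top x)⟩
  have hpre : IsPreconnected (Set.univ : Set P) := by
    rw [← huniv]; exact isPreconnected_connectedComponent
  have h2 := hpre.image ((↑) : P → X) continuous_subtype_val.continuousOn
  rw [Set.image_univ, Subtype.range_coe] at h2
  exact h2

theorem main (h : S_EV) : S_PPc := by
  intro G _ _ _ N D
  unfold PP
  apply gen_preconn
  · refine ⟨0, 1, 1, 1, N.G0.one_mem, N.G0.one_mem, N.G0.one_mem, ?_⟩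
    funext q
    simp [gpp]
  · have hset : {f : RR D → G | ∃ (e : ℤ) (u x v : G), u ∈ N.G0 ∧ x ∈ N.G0 ∧ v ∈ N.G0 ∧
        f = gpp N D e u x v} = ⋃ e : ℤ, (fun z : G × G × G => gpp N D e z.1 z.2.1 z.2.2) ''
          ((N.G0 : Set G) ×ˢ ((N.G0 : Set G) ×ˢ (N.G0 : Set G))) := by
      ext f
      simp only [Set.mem_ofPred_eq, Set.mem_iUnion, Set.mem_image, Set.mem_prod, SetLike.mem_coe]
      constructor
      · rintro ⟨e, u, x, v, hu, hx, hv, rfl⟩
        exact ⟨e, (u, x, v), ⟨hu, hx, hv⟩, rfl⟩
      · rintro ⟨e, ⟨u, x, v⟩, ⟨hu, hx, hv⟩, rfl⟩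
        exact ⟨e, u, x, v, hu, hx, hv, rfl⟩
    rw [hset]
    apply isPreconnected_iUnion
    · refine ⟨1, Set.mem_iInter.mpr fun e => ⟨(1, 1, 1), ⟨N.G0.one_mem, N.G0.one_mem, N.G0.one_mem⟩, ?_⟩⟩
      funext q
      simp [gpp]
    · intro e
      refine (N.conn.prod (N.conn.prod N.conn)).image _ (Continuous.continuousOn ?_)
      refine continuous_pi fun q => ?_
      unfold gpp
      have c1 : Continuous fun z : G × G × G => (z.1 * N.a) ^ (ev D e q) :=
        (continuous_fst.mul continuous_const).zpow _
      have c2 : Continuous fun z : G × G × G => (z.2.2 * N.a) ^ (ev D e q) :=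
        ((continuous_snd.comp continuous_snd).mul continuous_const).zpow _
      exact (c1.mul (continuous_fst.comp continuous_snd)).mul c2.inv

end Pool.Agent.W32.PR.PPc
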