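import Pool.Agent.W207.PR.A0
import Pool.Agent.H345R2.A2.Four

set_option autoImplicit false

open Filter Topology Set MeasureTheory

namespace Pool.Agent.W32.PR

open W207.PR

/-- the density -/
noncomputable def g0 (t : ℝ) : ℝ := 1 - (Real.sin (Real.pi * t) / (Real.pi * t)) ^ 2

lemma g0_meas : Measurable g0 := by
  unfold g0
  fun_prop

lemma g0_mem (t : ℝ) : 0 ≤ g0 t ∧ g0 t ≤ 1 := by
  unfold g0
  have h1 : |Real.sin (Real.pi * t) / (Real.pi * t)| ≤ 1 := by
    rw [abs_div]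
    exact div_le_one_of_le₀ Real.abs_sin_le_abs (abs_nonneg _)
  have h2 : (Real.sin (Real.pi * t) / (Real.pi * t)) ^ 2 ≤ 1 := by
    rw [← sq_abs]
    exact pow_le_one₀ (abs_nonneg _) h1
  constructor
  · linarith
  · linarith [sq_nonneg (Real.sin (Real.pi * t) / (Real.pi * t))]

lemma g0_even (t : ℝ) : g0 (-t) = g0 t := by
  unfold g0
  rw [mul_neg, Real.sin_neg, neg_div_neg_eq]

lemma g0_ii (a b : ℝ) : IntervalIntegrable g0 volume a b := by
  refine (intervalIntegrable_const (c := (1 : ℝ))).mono_fun' g0_meas.aestronglyMeasurable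
    (ae_of_all _ fun t => ?_)
  show ‖g0 t‖ ≤ 1
  rw [Real.norm_eq_abs, abs_of_nonneg (g0_mem t).1]
  exact (g0_mem t).2

lemma G_eq (u : ℝ) : G u = ∫ t in (0 : ℝ)..u, g0 t := rfl

lemma G_cont : Continuous G := by
  have : G = fun u => ∫ t in (0 : ℝ)..u, g0 t := rfl
  rw [this]
  exact intervalIntegral.continuous_primitive g0_ii 0

lemma G_zero : G 0 = 0 := by rw [G_eq]; simp

lemma G_mem {u : ℝ} (hu : 0 ≤ u) : 0 ≤ G u ∧ G u ≤ u := by
  rw [G_eq]
  refine ⟨intervalIntegral.integral_nonneg hu fun t _ => (g0_mem t).1, ?_⟩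
  have h := intervalIntegral.integral_mono_on hu (g0_ii 0 u)
    (intervalIntegrable_const (c := (1 : ℝ))) (fun t _ => (g0_mem t).2)
  simpa using h

lemma G_deriv {u : ℝ} (hu : 0 < u) : HasDerivAt G (g0 u) u := by
  have hc : ContinuousAt g0 u := by
    unfold g0
    have hne : Real.pi * u ≠ 0 := mul_ne_zero Real.pi_ne_zero hu.ne'
    have h1 : ContinuousAt (fun t : ℝ => Real.sin (Real.pi * t)) u := by fun_prop
    have h2 : ContinuousAt (fun t : ℝ => Real.pi * t) u := by fun_prop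
    exact continuousAt_const.sub ((h1.div h2 hne).pow 2)
  exact intervalIntegral.integral_hasDerivAt_right (g0_ii 0 u)
    (g0_meas.stronglyMeasurable.stronglyMeasurableAtFilter) hc

lemma ct_even (ψ : ℝ → ℝ) (x : ℝ) : ct ψ (-x) = ct ψ x := by
  unfold ct
  refine integral_congr_ae (ae_of_all _ fun α => ?_)
  show ψ α * Real.cos (2 * Real.pi * α * (-x)) = ψ α * Real.cos (2 * Real.pi * α * x)
  rw [mul_neg, Real.cos_neg]

theorem ibg : S_IBG := by
  intro hdec ψ hψ
  obtain ⟨μ, hμ0, hμ1, hz⟩ := hψ.supp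
  have hcψ : Continuous ψ := (hψ.smooth 0).continuous
  obtain ⟨hder, hdc, hK⟩ := hdec ψ hψ
  obtain ⟨K3, hK30, hK3⟩ := hK 3
  have hcc : Continuous (ct ψ) := continuous_iff_continuousAt.2 fun x => (hder x).continuousAt
  have hsup : ∀ c : ℝ → ℝ, ∫ α in (-μ)..μ, ψ α * c α = ∫ α, ψ α * c α := by
    intro c
    apply intervalIntegral.integral_eq_integral_of_support_subset
    intro α hα
    by_contra h
    apply hα
    have : μ ≤ |α| := by
      by_contra h2
      push Not at h2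
      obtain ⟨h3, h4⟩ := abs_lt.1 h2
      exact h ⟨by linarith, by linarith⟩
    show ψ α * c α = 0
    rw [hz α this, zero_mul]
  have hRR : ∀ x, H370.A2.RR ψ μ x = ct ψ x := by
    intro x
    unfold H370.A2.RR ct
    exact hsup _
  -- bounds
  have hb : ∀ x : ℝ, |ct ψ x| * (1 + |x|) ^ 3 ≤ K3 := fun x => (hK3 x).1
  have hd : ∀ x : ℝ, |dt ψ x| * (1 + |x|) ^ 3 ≤ K3 := fun x => (hK3 x).2
  have hC : ∀ x, |H370.A2.RR ψ μ x| * x ^ 2 ≤ K3 := by
    intro x
    rw [hRR]
    refine le_trans (mul_le_mul_of_nonneg_left ?_ (abs_nonneg _)) (hb x)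
    have h0 := abs_nonneg x
    rw [← sq_abs]
    nlinarith [pow_nonneg h0 3, pow_nonneg h0 2]
  have hmt := H370.A2.main_term hcψ hz hμ1.le hC
  simp only [hRR] at hmt
  have hMM : MM ψ = ct ψ 0 + ∫ x, ct ψ x * g0 x := by
    unfold MM
    have e : ∫ α : ℝ, |α| * ψ α = ∫ α in (-μ)..μ, |α| * ψ α := by
      have h1 := hsup (fun α => |α|)
      have h2 : ∫ α in (-μ)..μ, |α| * ψ α = ∫ α in (-μ)..μ, ψ α * |α| :=
        intervalIntegral.integral_congr fun α _ => mul_comm _ _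
      have h3 : ∫ α : ℝ, |α| * ψ α = ∫ α : ℝ, ψ α * |α| :=
        integral_congr_ae (ae_of_all _ fun α => mul_comm _ _)
      rw [h2, h3, h1]
    rw [e]
    exact hmt.symm
  -- the two pointwise bounds
  have key : ∀ (y : ℝ) (u : ℝ), 0 < u → |y| * (1 + |u|) ^ 3 ≤ K3 →
      |y| * (1 + 2 * u) ≤ 2 * K3 * (1 + u ^ 2)⁻¹ := by
    intro y u hu h
    rw [abs_of_pos hu] at h
    rw [← div_eq_mul_inv, le_div_iff₀ (by positivity)]
    have h1 : (1 + 2 * u) * (1 + u ^ 2) ≤ 2 * (1 + u) ^ 3 := by nlinarith [pow_pos hu 2, pow_pos hu 3]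
    calc |y| * (1 + 2 * u) * (1 + u ^ 2) = |y| * ((1 + 2 * u) * (1 + u ^ 2)) := by ring
      _ ≤ |y| * (2 * (1 + u) ^ 3) := mul_le_mul_of_nonneg_left h1 (abs_nonneg _)
      _ = 2 * (|y| * (1 + u) ^ 3) := by ring
      _ ≤ 2 * K3 := by linarith
  have hdom : IntegrableOn (fun u : ℝ => 2 * K3 * (1 + u ^ 2)⁻¹) (Ioi 0) :=
    (integrable_inv_one_add_sq.const_mul (2 * K3)).integrableOn
  have hdi : IntegrableOn (fun u => dt ψ u) (Ioi 0) := by
    refine hdom.mono' hdc.aestronglyMeasurable ?_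
    refine (ae_restrict_iff' measurableSet_Ioi).2 (ae_of_all _ fun u hu => ?_)
    have hu' : (0 : ℝ) < u := hu
    refine le_trans ?_ (key _ u hu' (hd u))
    rw [Real.norm_eq_abs]
    exact le_mul_of_one_le_right (abs_nonneg _) (by linarith)
  have hdG : IntegrableOn (fun u => dt ψ u * G u) (Ioi 0) := by
    refine hdom.mono' (hdc.mul G_cont).aestronglyMeasurable ?_
    refine (ae_restrict_iff' measurableSet_Ioi).2 (ae_of_all _ fun u hu => ?_)
    have hu' : (0 : ℝ) < u := hu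
    refine le_trans ?_ (key _ u hu' (hd u))
    rw [norm_mul, Real.norm_eq_abs, Real.norm_eq_abs, abs_of_nonneg (G_mem hu'.le).1]
    exact mul_le_mul_of_nonneg_left (by linarith [(G_mem hu'.le).2]) (abs_nonneg _)
  have hcg : IntegrableOn (fun u => ct ψ u * g0 u) (Ioi 0) := by
    refine hdom.mono' (hcc.aestronglyMeasurable.mul g0_meas.aestronglyMeasurable) ?_
    refine (ae_restrict_iff' measurableSet_Ioi).2 (ae_of_all _ fun u hu => ?_)
    have hu' : (0 : ℝ) < u := hu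
    refine le_trans ?_ (key _ u hu' (hb u))
    rw [norm_mul, Real.norm_eq_abs, Real.norm_eq_abs, abs_of_nonneg (g0_mem u).1]
    exact mul_le_mul_of_nonneg_left (by linarith [(g0_mem u).2]) (abs_nonneg _)
  have hfull : IntegrableOn (fun u => dt ψ u * (1 + 2 * G u)) (Ioi 0) := by
    have h := hdi.add (hdG.const_mul 2)
    refine h.congr (ae_of_all _ fun u => ?_)
    show dt ψ u + 2 * (dt ψ u * G u) = dt ψ u * (1 + 2 * G u)
    ring
  -- limits at infinity
  have hlim : ∀ f : ℝ → ℝ, (∀ u : ℝ, 0 < u → |f u| * (1 + u) ^ 2 ≤ K3) →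
      Tendsto f atTop (𝓝 0) := by
    intro f hf
    have h1 : Tendsto (fun u : ℝ => K3 * (u)⁻¹) atTop (𝓝 0) := by
      simpa using tendsto_inv_atTop_zero.const_mul K3
    refine squeeze_zero_norm' ?_ h1
    filter_upwards [eventually_gt_atTop 0] with u hu
    rw [Real.norm_eq_abs, ← div_eq_mul_inv, le_div_iff₀ hu]
    refine le_trans (mul_le_mul_of_nonneg_left ?_ (abs_nonneg _)) (hf u hu)
    nlinarith
  have hl1 : Tendsto (ct ψ) atTop (𝓝 0) := by
    apply hlim
    intro u hu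
    refine le_trans (mul_le_mul_of_nonneg_left ?_ (abs_nonneg _)) (hb u)
    rw [abs_of_pos hu]
    exact pow_le_pow_right₀ (by linarith) (by norm_num)
  have hl2 : Tendsto (fun u => ct ψ u * G u) atTop (𝓝 0) := by
    apply hlim
    intro u hu
    have h := hb u
    rw [abs_of_pos hu] at h
    rw [abs_mul, abs_of_nonneg (G_mem hu.le).1]
    calc |ct ψ u| * G u * (1 + u) ^ 2 ≤ |ct ψ u| * (1 + u) * (1 + u) ^ 2 := by
          refine mul_le_mul_of_nonneg_right (mul_le_mul_of_nonneg_left ?_ (abs_nonneg _))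
            (by positivity)
          linarith [(G_mem hu.le).2]
      _ = |ct ψ u| * (1 + u) ^ 3 := by ring
      _ ≤ K3 := h
  have hi1 : ∫ u in Ioi (0 : ℝ), dt ψ u = 0 - ct ψ 0 :=
    integral_Ioi_of_hasDerivAt_of_tendsto hcc.continuousWithinAt (fun x _ => hder x) hdi hl1
  have hi2 : ∫ u in Ioi (0 : ℝ), (dt ψ u * G u + ct ψ u * g0 u) = 0 - ct ψ 0 * G 0 := by
    refine integral_Ioi_of_hasDerivAt_of_tendsto
      (f := fun u => ct ψ u * G u) (hcc.mul G_cont).continuousWithinAt ?_ (hdG.add hcg) hl2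
    intro x hx
    exact (hder x).mul (G_deriv hx)
  rw [G_zero, mul_zero, sub_zero, integral_add hdG hcg] at hi2
  have hi3 : ∫ x, ct ψ x * g0 x = 2 * ∫ x in Ioi (0 : ℝ), ct ψ x * g0 x := by
    rw [← integral_comp_abs (f := fun x => ct ψ x * g0 x)]
    refine integral_congr_ae (ae_of_all _ fun x => ?_)
    show ct ψ x * g0 x = ct ψ |x| * g0 |x|
    rcases abs_choice x with h | h
    · rw [h]
    · rw [h, ct_even, g0_even]
  refine ⟨hfull, ?_⟩
  have hi4 : ∫ u in Ioi (0 : ℝ), dt ψ u * (1 + 2 * G u) =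
      (∫ u in Ioi (0 : ℝ), dt ψ u) + 2 * ∫ u in Ioi (0 : ℝ), dt ψ u * G u := by
    rw [← integral_const_mul, ← integral_add hdi (hdG.const_mul 2)]
    refine integral_congr_ae (ae_of_all _ fun u => ?_)
    show dt ψ u * (1 + 2 * G u) = dt ψ u + 2 * (dt ψ u * G u)
    ring
  rw [hMM, hi4, hi1, hi3]
  linarith

end Pool.Agent.W32.PR
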